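import Mathlib
import Pool.Agent.H23.DfRing

set_option autoImplicit false

open Set FirstOrder FirstOrder.Language Polynomial Pool.Agent.H23

namespace Pool.Agent.Results.MP_d395f7_lc.Definable

/-- constants -/
def Cst (c : ℂ[X]) : Prop := c = 0 ∨ c ∣ 1
/-- `h(a) = c` -/
def Ev (h a c : ℂ[X]) : Prop := Cst a ∧ Cst c ∧ X - a ∣ h - c
/-- a polynomial maps the roots of `p` injectively to roots of `q` -/
def RLe (p q : ℂ[X]) : Prop :=
  ∃ h, (∀ a, Ev p a 0 → ∃ c, Ev q c 0 ∧ Ev h a c) ∧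
    ∀ a, ∀ b, ∀ c, Ev p a 0 → Ev p b 0 → Ev h a c → Ev h b c → a = b
def DLe (f g : ℂ[X]) : Prop := ∀ c, Cst c → ∃ d, Cst d ∧ RLe (f - c) (g - d)

theorem cst_iff (c : ℂ[X]) : Cst c ↔ ∃ a, c = C a := by
  constructor
  · rintro (rfl | h)
    · exact ⟨0, by simp⟩
    · obtain ⟨r, -, hr⟩ := Polynomial.isUnit_iff.1 (isUnit_of_dvd_one h)
      exact ⟨r, hr.symm⟩
  · rintro ⟨a, rfl⟩
    by_cases h : a = 0
    · left; simp [h]
    · right; exact (isUnit_C.2 (IsUnit.mk0 a h)).dvd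

theorem ev_iff (h a c : ℂ[X]) : Ev h a c ↔ ∃ x, a = C x ∧ c = C (h.eval x) := by
  unfold Ev
  rw [cst_iff, cst_iff]
  constructor
  · rintro ⟨⟨x, rfl⟩, ⟨y, rfl⟩, k⟩
    rw [dvd_iff_isRoot] at k
    refine ⟨x, rfl, ?_⟩
    simp only [IsRoot.def, eval_sub, eval_C, sub_eq_zero] at k
    rw [k]
  · rintro ⟨x, rfl, rfl⟩
    exact ⟨⟨x, rfl⟩, ⟨_, rfl⟩, by rw [dvd_iff_isRoot]; simp⟩

theorem rle_iff {p q : ℂ[X]} (hp : p ≠ 0) (hq : q ≠ 0) :
    RLe p q ↔ p.roots.toFinset.card ≤ q.roots.toFinset.card := by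
  classical
  have e0 : ∀ (r : ℂ[X]) (a : ℂ[X]), Ev r a 0 ↔ ∃ x, a = C x ∧ r.eval x = 0 := by
    intro r a
    rw [ev_iff]
    refine exists_congr fun x => and_congr Iff.rfl ?_
    rw [eq_comm, C_eq_zero]
  constructor
  · rintro ⟨h, h1, h2⟩
    refine Finset.card_le_card_of_injOn (fun x => h.eval x) ?_ ?_
    · intro x hx
      simp only [Finset.mem_coe, Multiset.mem_toFinset, mem_roots hp, mem_roots hq,
        IsRoot.def] at hx ⊢
      obtain ⟨c, k1, k2⟩ := h1 (C x) ((e0 _ _).2 ⟨x, rfl, hx⟩)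
      obtain ⟨y, rfl, hy⟩ := (e0 _ _).1 k1
      obtain ⟨z, hz, hz'⟩ := (ev_iff _ _ _).1 k2
      rw [C_inj] at hz hz'
      rw [hz, ← hz', hy]
    · intro x hx y hy hxy
      simp only [Finset.mem_coe, Multiset.mem_toFinset, mem_roots hp, IsRoot.def] at hx hy
      exact C_inj.1 (h2 (C x) (C y) (C (h.eval x)) ((e0 _ _).2 ⟨x, rfl, hx⟩)
        ((e0 _ _).2 ⟨y, rfl, hy⟩) ((ev_iff _ _ _).2 ⟨x, rfl, rfl⟩)
        ((ev_iff _ _ _).2 ⟨y, rfl, congrArg C hxy⟩))
  · intro hc
    obtain ⟨φ, hφ⟩ := Function.Embedding.exists_of_card_le_finset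
      (α := p.roots.toFinset) (s := q.roots.toFinset) (by simpa using hc)
    let r : ℂ → ℂ := fun x => if hx : x ∈ p.roots.toFinset then φ ⟨x, hx⟩ else 0
    have hr : ∀ x (hx : x ∈ p.roots.toFinset),
        (Lagrange.interpolate p.roots.toFinset id r).eval x = φ ⟨x, hx⟩ := by
      intro x hx
      have := Lagrange.eval_interpolate_at_node (s := p.roots.toFinset) (v := id) r
        (Set.injOn_id _) hx
      rw [id] at this
      rw [this]; simp only [r, dif_pos hx]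
    refine ⟨Lagrange.interpolate p.roots.toFinset id r, ?_, ?_⟩
    · intro a ha
      obtain ⟨x, rfl, hx⟩ := (e0 _ _).1 ha
      have hx' : x ∈ p.roots.toFinset := by simp [hp, hx]
      refine ⟨C (φ ⟨x, hx'⟩), (e0 _ _).2 ⟨_, rfl, ?_⟩, (ev_iff _ _ _).2 ⟨x, rfl, by rw [hr x hx']⟩⟩
      have := hφ ⟨⟨x, hx'⟩, rfl⟩
      simp only [Finset.mem_coe, Multiset.mem_toFinset, mem_roots hq, IsRoot.def] at this
      exact this
    · intro a b c ha hb hac hbc
      obtain ⟨x, rfl, hx⟩ := (e0 _ _).1 ha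
      obtain ⟨y, rfl, hy⟩ := (e0 _ _).1 hb
      have hx' : x ∈ p.roots.toFinset := by simp [hp, hx]
      have hy' : y ∈ p.roots.toFinset := by simp [hp, hy]
      obtain ⟨z, hz, hz'⟩ := (ev_iff _ _ _).1 hac
      obtain ⟨w, hw, hw'⟩ := (ev_iff _ _ _).1 hbc
      rw [C_inj] at hz hw
      subst hz hw
      rw [hz', C_inj, hr x hx', hr y hy'] at hw'
      rw [show x = y from congrArg Subtype.val (φ.injective hw')]

theorem card_le (p : ℂ[X]) : p.roots.toFinset.card ≤ p.natDegree :=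
  (Multiset.toFinset_card_le _).trans (card_roots' p)

theorem exists_generic {f : ℂ[X]} (hf : 0 < f.natDegree) :
    ∃ c, (f - C c).roots.toFinset.card = f.natDegree := by
  classical
  have hd : derivative f ≠ 0 := fun h => hf.ne' (natDegree_eq_zero_of_derivative_eq_zero h)
  obtain ⟨c, hc⟩ := Infinite.exists_notMem_finset
    ((derivative f).roots.toFinset.image fun x => f.eval x)
  refine ⟨c, ?_⟩
  have hs : (f - C c).Separable := by
    rw [Separable, Polynomial.isCoprime_iff_aeval_ne_zero_of_isAlgClosed ℂ ℂ]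
    intro a
    by_contra h
    push Not at h
    simp only [coe_aeval_eq_eval, eval_sub, eval_C, derivative_sub, derivative_C, sub_zero,
      sub_eq_zero] at h
    exact hc (Finset.mem_image.2 ⟨a, by simp [hd, h.2], h.1⟩)
  rw [Multiset.toFinset_card_of_nodup (nodup_roots hs), IsAlgClosed.card_roots_eq_natDegree,
    natDegree_sub_C]

theorem dle_iff {f g : ℂ[X]} (hf : 0 < f.natDegree) (hg : 0 < g.natDegree) :
    DLe f g ↔ f.natDegree ≤ g.natDegree := by
  have nz : ∀ {p : ℂ[X]}, 0 < p.natDegree → ∀ c, p - C c ≠ 0 := by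
    intro p hp c h
    have := natDegree_sub_C (p := p) (a := c)
    rw [h] at this; simp at this; omega
  constructor
  · intro h
    obtain ⟨c, hc⟩ := exists_generic hf
    obtain ⟨d, hd, k⟩ := h (C c) ((cst_iff _).2 ⟨c, rfl⟩)
    obtain ⟨d, rfl⟩ := (cst_iff _).1 hd
    rw [rle_iff (nz hf c) (nz hg d), hc] at k
    exact k.trans ((card_le _).trans (by rw [natDegree_sub_C]))
  · intro h c hc
    obtain ⟨c, rfl⟩ := (cst_iff _).1 hc
    obtain ⟨d, hd⟩ := exists_generic hg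
    refine ⟨C d, (cst_iff _).2 ⟨d, rfl⟩, ?_⟩
    rw [rle_iff (nz hf c) (nz hg d), hd]
    exact (card_le _).trans (by rw [natDegree_sub_C]; exact h)

theorem key (f g : ℂ[X]) : f.degree = g.degree ↔
    (f = 0 ↔ g = 0) ∧ (Cst f ↔ Cst g) ∧ (¬ Cst f → DLe f g ∧ DLe g f) := by
  have hc : ∀ p : ℂ[X], Cst p ↔ p.natDegree = 0 := fun p => by
    rw [cst_iff, natDegree_eq_zero]; simp only [eq_comm]
  constructor
  · intro h
    have hn := natDegree_eq_of_degree_eq h
    refine ⟨by rw [← degree_eq_bot, ← degree_eq_bot, h], by rw [hc, hc, hn], fun k => ?_⟩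
    rw [hc] at k
    have k1 : 0 < f.natDegree := Nat.pos_of_ne_zero k
    rw [dle_iff k1 (hn ▸ k1), dle_iff (hn ▸ k1) k1]
    omega
  · rintro ⟨h0, h1, h2⟩
    by_cases hf : f = 0
    · rw [hf, h0.1 hf]
    have hg : g ≠ 0 := fun k => hf (h0.2 k)
    rw [degree_eq_natDegree hf, degree_eq_natDegree hg]
    congr 1
    by_cases k : Cst f
    · rw [(hc f).1 k, (hc g).1 (h1.1 k)]
    · have k1 : 0 < f.natDegree := Nat.pos_of_ne_zero fun e => k ((hc f).2 e)
      have k2 : 0 < g.natDegree := Nat.pos_of_ne_zero fun e => k (h1.2 ((hc g).2 e))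
      have := h2 k
      rw [dle_iff k1 k2, dle_iff k2 k1] at this
      omega

section
variable [FirstOrder.Ring.CompatibleRing ℂ[X]] {s t u : (ℕ → ℂ[X]) → ℂ[X]}

theorem dCst (a : Tm Language.ring s) : Df Language.ring fun v => Cst (s v) :=
  (Df.eq a (Tm.const _)).or (Df.dvd a (Tm.const _))

theorem dEv (a : Tm Language.ring s) (b : Tm Language.ring t) (c : Tm Language.ring u) :
    Df Language.ring fun v => Ev (s v) (t v) (u v) :=
  (dCst b).and ((dCst c).and (Df.dvd ((Tm.const _).sub b) (a.sub c)))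

theorem dRLe (a : Tm Language.ring s) (b : Tm Language.ring t) :
    Df Language.ring fun v => RLe (s v) (t v) :=
  Df.app2 (r := RLe) (Df.ex (Df.and
    (Df.all ((dEv (Tm.var 2) (Tm.var 0) (Tm.const _)).imp
      (Df.ex ((dEv (Tm.var 4) (Tm.var 0) (Tm.const _)).and
        (dEv (Tm.var 2) (Tm.var 1) (Tm.var 0))))))
    (Df.all (Df.all (Df.all ((dEv (Tm.var 4) (Tm.var 2) (Tm.const _)).imp
      ((dEv (Tm.var 4) (Tm.var 1) (Tm.const _)).imp
      ((dEv (Tm.var 3) (Tm.var 2) (Tm.var 0)).imp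
      ((dEv (Tm.var 3) (Tm.var 1) (Tm.var 0)).imp (Df.eq (Tm.var 2) (Tm.var 1))))))))))) a b

theorem dDLe (a : Tm Language.ring s) (b : Tm Language.ring t) :
    Df Language.ring fun v => DLe (s v) (t v) :=
  Df.app2 (r := DLe) (Df.all ((dCst (Tm.var 0)).imp (Df.ex ((dCst (Tm.var 0)).and
    (dRLe ((Tm.var 2).sub (Tm.var 1)) ((Tm.var 3).sub (Tm.var 0))))))) a b
end

/-- Equality of degrees is first-order definable, with parameters, in the ring of complex
polynomials. -/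
theorem result :
    letI := FirstOrder.Ring.compatibleRingOfRing (Polynomial ℂ)
    (Set.univ : Set (Polynomial ℂ)).Definable FirstOrder.Language.ring
      {v : Fin 2 → Polynomial ℂ | (v 0).degree = (v 1).degree} := by
  letI := FirstOrder.Ring.compatibleRingOfRing (Polynomial ℂ)
  have : Df Language.ring fun v : ℕ → ℂ[X] => (v 0).degree = (v 1).degree := by
    simp only [key]
    exact ((Df.eq (Tm.var 0) (Tm.const _)).iff (Df.eq (Tm.var 1) (Tm.const _))).and
      (((dCst (Tm.var 0)).iff (dCst (Tm.var 1))).and ((dCst (Tm.var 0)).not.imp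
        ((dDLe (Tm.var 0) (Tm.var 1)).and (dDLe (Tm.var 1) (Tm.var 0)))))
  exact this.fin (n := 1)

end Pool.Agent.Results.MP_d395f7_lc.Definable
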